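import Pool.Agent.H60.BF.Heis

/-!
# Spectral gap for three projections, without spectral theory
-/

set_option autoImplicit false

open scoped InnerProductSpace

namespace Pool.Agent.H60.BF

variable {H : Type*} [NormedAddCommGroup H] [InnerProductSpace ℂ H]

/-- energy -/
noncomputable def qq (P : Fin 3 → H →L[ℂ] H) (x : H) : ℝ := ∑ i, ‖x - P i x‖ ^ 2

theorem qq_nonneg (P : Fin 3 → H →L[ℂ] H) (x : H) : 0 ≤ qq P x :=
  Finset.sum_nonneg fun _ _ => by positivity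

/-- the defect operator -/
noncomputable def dd (P : Fin 3 → H →L[ℂ] H) (x : H) : H := ∑ i, (x - P i x)

/-- the averaging operator -/
noncomputable def tt (P : Fin 3 → H →L[ℂ] H) : H →L[ℂ] H := ((1 : ℂ) / 3) • ∑ i, P i

theorem sub_tt (P : Fin 3 → H →L[ℂ] H) (x : H) : x - tt P x = ((1 : ℂ) / 3) • dd P x := by
  unfold tt dd
  simp only [Fin.sum_univ_three, smul_apply, add_apply]
  module

theorem dd_sub (P : Fin 3 → H →L[ℂ] H) (x y : H) : dd P (x - y) = dd P x - dd P y := by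
  unfold dd
  simp only [Fin.sum_univ_three, map_sub]
  abel

theorem dd_smul (P : Fin 3 → H →L[ℂ] H) (c : ℂ) (x : H) : dd P (c • x) = c • dd P x := by
  unfold dd
  simp only [Fin.sum_univ_three, map_smul]
  module

theorem tt_dd (P : Fin 3 → H →L[ℂ] H) (x : H) : tt P (dd P x) = dd P (tt P x) := by
  have h1 : tt P x = x - ((1 : ℂ) / 3) • dd P x := by rw [← sub_tt]; abel
  rw [h1, dd_sub, dd_smul, ← sub_tt]
  abel

/-- hypotheses -/
structure Trip (P : Fin 3 → H →L[ℂ] H) : Prop where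
  proj : ∀ i, Proj (P i)
  key : ∀ i j, i ≠ j → ∀ x, 0 ≤ 2 * (⟪x - P i x, x - P j x⟫_ℂ).re +
      ll * (‖x - P i x‖ ^ 2 + ‖x - P j x‖ ^ 2)

theorem Trip.dd_symm {P : Fin 3 → H →L[ℂ] H} (h : Trip P) (x y : H) :
    ⟪dd P x, y⟫_ℂ = ⟪x, dd P y⟫_ℂ := by
  unfold dd
  simp only [Fin.sum_univ_three, inner_add_left, inner_add_right, inner_sub_left, inner_sub_right,
    (h.proj _).symm]

theorem Trip.re_dd {P : Fin 3 → H →L[ℂ] H} (h : Trip P) (x : H) :
    (⟪dd P x, x⟫_ℂ).re = qq P x := by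
  unfold dd qq
  simp only [Fin.sum_univ_three, inner_add_left, inner_sub_left, Complex.add_re, Complex.sub_re,
    (h.proj _).re_inner, (h.proj _).norm_sub]
  rw [show (⟪x, x⟫_ℂ).re = ‖x‖ ^ 2 from inner_self_eq_norm_sq (𝕜 := ℂ) _]

theorem Trip.norm_dd {P : Fin 3 → H →L[ℂ] H} (h : Trip P) (x : H) :
    (1 - 2 * ll) * qq P x ≤ ‖dd P x‖ ^ 2 := by
  have k01 := h.key 0 1 (by decide) x
  have k02 := h.key 0 2 (by decide) x
  have k12 := h.key 1 2 (by decide) x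
  have e : ‖dd P x‖ ^ 2 = ‖x - P 0 x‖ ^ 2 + ‖x - P 1 x‖ ^ 2 + ‖x - P 2 x‖ ^ 2 +
      2 * (⟪x - P 0 x, x - P 1 x⟫_ℂ).re + 2 * (⟪x - P 0 x, x - P 2 x⟫_ℂ).re +
      2 * (⟪x - P 1 x, x - P 2 x⟫_ℂ).re := by
    unfold dd
    rw [Fin.sum_univ_three, norm_add_sq (𝕜 := ℂ), norm_add_sq (𝕜 := ℂ), inner_add_left]
    simp only [RCLike.re_to_complex, Complex.add_re]
    ring
  rw [e]
  unfold qq
  rw [Fin.sum_univ_three]
  nlinarith

theorem Trip.norm_dd_le (P : Fin 3 → H →L[ℂ] H) (x : H) : ‖dd P x‖ ^ 2 ≤ 3 * qq P x := by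
  unfold dd qq
  rw [Fin.sum_univ_three, Fin.sum_univ_three]
  set a := x - P 0 x
  set b := x - P 1 x
  set c := x - P 2 x
  have h1 : ‖a + b + c‖ ≤ ‖a‖ + ‖b‖ + ‖c‖ := norm_add₃_le
  have h2 : ‖a + b + c‖ ^ 2 ≤ (‖a‖ + ‖b‖ + ‖c‖) ^ 2 :=
    pow_le_pow_left₀ (norm_nonneg _) h1 2
  nlinarith [sq_nonneg (‖a‖ - ‖b‖), sq_nonneg (‖a‖ - ‖c‖), sq_nonneg (‖b‖ - ‖c‖)]

theorem Trip.tt_nonneg {P : Fin 3 → H →L[ℂ] H} (h : Trip P) (x : H) :
    0 ≤ (⟪tt P x, x⟫_ℂ).re := by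
  unfold tt
  simp only [Fin.sum_univ_three, smul_apply, add_apply, inner_smul_left, inner_add_left]
  have : (starRingEnd ℂ) (1 / 3) = (((1 : ℝ) / 3 : ℝ) : ℂ) := by
    rw [map_div₀, map_one]
    push_cast
    congr 1
    exact Complex.conj_ofNat 3
  rw [this, Complex.re_ofReal_mul]
  simp only [Complex.add_re, (h.proj _).re_inner]
  positivity

/-- contraction of the energy -/
theorem Trip.qq_tt {P : Fin 3 → H →L[ℂ] H} (h : Trip P) (x : H) :
    qq P (tt P x) ≤ (1 - (1 - 2 * ll) / 3) * qq P x := by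
  have h1 : tt P x = x - ((1 : ℂ) / 3) • dd P x := by rw [← sub_tt]; abel
  have c3 : ((1 : ℂ) / 3) = (((1 : ℝ) / 3 : ℝ) : ℂ) := by push_cast; rfl
  have cc : (starRingEnd ℂ) (((1 : ℝ) / 3 : ℝ) : ℂ) = (((1 : ℝ) / 3 : ℝ) : ℂ) :=
    Complex.conj_ofReal _
  -- `<D T x, T x> = <D x, x> - (1/3) ||Dx||^2 - (1/3) <T D x, D x>`
  have e1 : (⟪dd P (tt P x), tt P x⟫_ℂ).re =
      (⟪dd P x, x⟫_ℂ).re - 1 / 3 * ‖dd P x‖ ^ 2 - 1 / 3 * (⟪tt P (dd P x), dd P x⟫_ℂ).re := by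
    have a1 : ⟪dd P (tt P x), tt P x⟫_ℂ = ⟪dd P (tt P x), x⟫_ℂ -
        ((1 : ℂ) / 3) * ⟪dd P (tt P x), dd P x⟫_ℂ := by
      conv_lhs => rw [h1, inner_sub_right, inner_smul_right]
      rw [← h1]
    have a2 : ⟪dd P (tt P x), x⟫_ℂ = ⟪dd P x, x⟫_ℂ - ((1 : ℂ) / 3) * ⟪dd P x, dd P x⟫_ℂ := by
      rw [h1, dd_sub, dd_smul, inner_sub_left, inner_smul_left, c3, cc, h.dd_symm (dd P x) x]
    rw [a1, a2, ← tt_dd, c3]
    simp only [Complex.sub_re, Complex.re_ofReal_mul]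
    rw [show (⟪dd P x, dd P x⟫_ℂ).re = ‖dd P x‖ ^ 2 from inner_self_eq_norm_sq (𝕜 := ℂ) _]
  rw [h.re_dd, h.re_dd] at e1
  have e2 := h.tt_nonneg (dd P x)
  have e3 := h.norm_dd x
  rw [e1]
  nlinarith

theorem norm_sub_tt (P : Fin 3 → H →L[ℂ] H) (x : H) :
    ‖x - tt P x‖ ^ 2 ≤ 1 / 3 * qq P x := by
  rw [sub_tt, norm_smul, mul_pow]
  have : ‖((1 : ℂ) / 3)‖ = 1 / 3 := by
    rw [show ((1 : ℂ) / 3) = (((1 : ℝ) / 3 : ℝ) : ℂ) by push_cast; rfl, Complex.norm_real]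
    norm_num
  rw [this]
  have := Trip.norm_dd_le P x
  nlinarith

/-- A vector fixed by the three projections near `x`, at distance controlled by the energy. -/
theorem Trip.exists_fixed [CompleteSpace H] {P : Fin 3 → H →L[ℂ] H} (h : Trip P) (x : H) :
    ∃ y : H, (∀ i, P i y = y) ∧ ‖x - y‖ ≤ 100 * Real.sqrt (qq P x) := by
  set c : ℝ := 1 - (1 - 2 * ll) / 3 with hc
  have hl := ll_lt
  have hl0 := ll_pos
  have hc0 : 0 ≤ c := by rw [hc]; linarith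
  have hc1 : c ≤ 29 / 30 := by rw [hc]; linarith
  set f : ℕ → H := fun n => ((tt P) ^ n) x with hf
  have hfs : ∀ n, f (n + 1) = tt P (f n) := by
    intro n
    simp only [hf, pow_succ']
    rfl
  have hq : ∀ n, qq P (f n) ≤ c ^ n * qq P x := by
    intro n
    induction n with
    | zero => simp [hf]
    | succ n ih =>
      rw [hfs]
      calc qq P (tt P (f n)) ≤ c * qq P (f n) := h.qq_tt _
        _ ≤ c * (c ^ n * qq P x) := mul_le_mul_of_nonneg_left ih hc0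
        _ = c ^ (n + 1) * qq P x := by ring
  set r : ℝ := 59 / 60 with hr
  have hcr : c ≤ r ^ 2 := by rw [hr]; linarith
  have hd : ∀ n, dist (f n) (f (n + 1)) ≤ Real.sqrt (qq P x) * r ^ n := by
    intro n
    rw [dist_eq_norm, hfs]
    have h1 := norm_sub_tt P (f n)
    have h2 : ‖f n - tt P (f n)‖ ^ 2 ≤ (Real.sqrt (qq P x) * r ^ n) ^ 2 := by
      rw [mul_pow, Real.sq_sqrt (qq_nonneg P x), ← pow_mul, mul_comm n 2, pow_mul]
      have h3 : c ^ n ≤ (r ^ 2) ^ n := pow_le_pow_left₀ hc0 hcr n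
      have h4 := hq n
      have h5 : c ^ n * qq P x ≤ (r ^ 2) ^ n * qq P x :=
        mul_le_mul_of_nonneg_right h3 (qq_nonneg P x)
      have h6 := qq_nonneg P (f n)
      linarith
    exact (abs_le_of_sq_le_sq' h2 (by positivity)).2
  have hr1 : r < 1 := by rw [hr]; norm_num
  have hcauchy := cauchySeq_of_le_geometric r (Real.sqrt (qq P x)) hr1 hd
  obtain ⟨y, hy⟩ := cauchySeq_tendsto_of_complete hcauchy
  refine ⟨y, ?_, ?_⟩
  · -- the energy of the limit is zero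
    have hcont : Continuous (qq P) := by
      unfold qq
      fun_prop
    have h1 : Filter.Tendsto (fun n => qq P (f n)) Filter.atTop (nhds (qq P y)) :=
      (hcont.tendsto y).comp hy
    have h2 : Filter.Tendsto (fun n => c ^ n * qq P x) Filter.atTop (nhds (0 * qq P x)) :=
      (tendsto_pow_atTop_nhds_zero_of_lt_one hc0 (by linarith)).mul_const _
    rw [zero_mul] at h2
    have h3 : qq P y ≤ 0 := le_of_tendsto_of_tendsto' h1 h2 hq
    have h4 : ∑ i, ‖y - P i y‖ ^ 2 = 0 := le_antisymm h3 (qq_nonneg P y)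
    rw [Finset.sum_eq_zero_iff_of_nonneg (fun _ _ => by positivity)] at h4
    intro i
    have h5 := h4 i (Finset.mem_univ i)
    have h6 : ‖y - P i y‖ = 0 := by
      rwa [sq_eq_zero_iff] at h5
    rw [norm_eq_zero, sub_eq_zero] at h6
    exact h6.symm
  · have h1 := dist_le_of_le_geometric_of_tendsto₀ r (Real.sqrt (qq P x)) hr1 hd hy
    have h2 : f 0 = x := by simp [hf]
    rw [h2, dist_eq_norm] at h1
    refine h1.trans ?_
    rw [hr]
    have := Real.sqrt_nonneg (qq P x)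
    norm_num
    linarith

end Pool.Agent.H60.BF
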