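import Mathlib

/-!
# A Kazhdan type inequality for isometric representations of Heisenberg groups mod 5

`avg A` is the average of the powers `A ^ i`, `i < 5`, of an operator with `A ^ 5 = 1`.
-/

set_option autoImplicit false

open scoped InnerProductSpace

namespace Pool.Agent.H60.BF

section ring

variable {R : Type*} [Ring R] [Algebra ℂ R]

/-- the mean of the first five powers -/
noncomputable def avg (a : R) : R := ((1 : ℂ) / 5) • ∑ i ∈ Finset.range 5, a ^ i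

theorem avg_eq (a : R) : avg a = ((1 : ℂ) / 5) • (1 + a + a ^ 2 + a ^ 3 + a ^ 4) := by
  unfold avg
  simp [Finset.sum_range_succ]

theorem mul_avg {a : R} (ha : a ^ 5 = 1) : a * avg a = avg a := by
  rw [avg_eq, mul_smul_comm]
  congr 1
  have h : a * (1 + a + a ^ 2 + a ^ 3 + a ^ 4) = a + a ^ 2 + a ^ 3 + a ^ 4 + a ^ 5 := by
    noncomm_ring
  rw [h, ha]
  abel

theorem avg_mul {a : R} (ha : a ^ 5 = 1) : avg a * a = avg a := by
  rw [avg_eq, smul_mul_assoc]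
  congr 1
  have h : (1 + a + a ^ 2 + a ^ 3 + a ^ 4) * a = a + a ^ 2 + a ^ 3 + a ^ 4 + a ^ 5 := by
    noncomm_ring
  rw [h, ha]
  abel

theorem pow_mul_avg {a : R} (ha : a ^ 5 = 1) (i : ℕ) : a ^ i * avg a = avg a := by
  induction i with
  | zero => simp
  | succ i ih => rw [pow_succ, mul_assoc, mul_avg ha, ih]

theorem avg_mul_pow {a : R} (ha : a ^ 5 = 1) (i : ℕ) : avg a * a ^ i = avg a := by
  induction i with
  | zero => simp
  | succ i ih => rw [pow_succ', ← mul_assoc, avg_mul ha, ih]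

theorem avg_mul_eq (a y : R) :
    avg a * y = ((1 : ℂ) / 5) • (y + a * y + a ^ 2 * y + a ^ 3 * y + a ^ 4 * y) := by
  rw [avg_eq, smul_mul_assoc]
  simp only [add_mul, one_mul]

theorem five_smul (y : R) : ((1 : ℂ) / 5) • (y + y + y + y + y) = y := by
  rw [show y + y + y + y + y = (5 : ℂ) • y by
    rw [show (5 : ℂ) = 1 + 1 + 1 + 1 + 1 by norm_num]
    simp only [add_smul, one_smul]]
  rw [smul_smul]
  norm_num

theorem avg_mul_avg {a : R} (ha : a ^ 5 = 1) : avg a * avg a = avg a := by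
  rw [avg_mul_eq, pow_mul_avg ha, pow_mul_avg ha, pow_mul_avg ha, mul_avg ha, five_smul]

/-- Commutation of powers in a Heisenberg relation. -/
theorem heis_pow {a b z : R} (h : a * b = z * (b * a)) (hza : z * a = a * z)
    (hzb : z * b = b * z) (i j : ℕ) : a ^ i * b ^ j = z ^ (i * j) * (b ^ j * a ^ i) := by
  have h1 : ∀ j : ℕ, a * b ^ j = z ^ j * (b ^ j * a) := by
    intro j
    induction j with
    | zero => simp
    | succ j ih =>
      have hc : Commute z b := hzb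
      calc a * b ^ (j + 1) = (a * b ^ j) * b := by rw [pow_succ, mul_assoc]
        _ = z ^ j * (b ^ j * (a * b)) := by rw [ih]; noncomm_ring
        _ = z ^ j * (b ^ j * z * (b * a)) := by rw [h]; noncomm_ring
        _ = z ^ j * (z * b ^ j * (b * a)) := by rw [(hc.pow_right j).eq]
        _ = z ^ (j + 1) * (b ^ (j + 1) * a) := by rw [pow_succ, pow_succ]; noncomm_ring
  induction i with
  | zero => simp
  | succ i ih =>
    have hc : Commute (z ^ j) (a ^ i) := by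
      have : Commute z a := hza
      exact this.pow_pow _ _
    calc a ^ (i + 1) * b ^ j = a ^ i * (a * b ^ j) := by rw [pow_succ]; noncomm_ring
      _ = a ^ i * z ^ j * (b ^ j * a) := by rw [h1]; noncomm_ring
      _ = z ^ j * (a ^ i * b ^ j) * a := by rw [← hc.eq]; noncomm_ring
      _ = z ^ j * z ^ (i * j) * (b ^ j * (a ^ i * a)) := by rw [ih]; noncomm_ring
      _ = z ^ ((i + 1) * j) * (b ^ j * a ^ (i + 1)) := by
        rw [← pow_add, ← pow_succ, Nat.succ_mul, Nat.add_comm]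

/-- The elements of a Heisenberg group mod 5. -/
structure Heis (a b z : R) : Prop where
  ha : a ^ 5 = 1
  hb : b ^ 5 = 1
  hz : z ^ 5 = 1
  h : a * b = z * (b * a)
  hza : z * a = a * z
  hzb : z * b = b * z

theorem Heis.symm {a b z : R} (H : Heis a b z) : Heis b a (z ^ 4) := by
  have hz4 : z ^ 4 * z = 1 := by rw [← pow_succ, H.hz]
  have hca : Commute z a := H.hza
  have hcb : Commute z b := H.hzb
  refine ⟨H.hb, H.ha, ?_, ?_, (hcb.pow_left 4).eq, (hca.pow_left 4).eq⟩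
  · rw [← pow_mul, show 4 * 5 = 5 * 4 by norm_num, pow_mul, H.hz, one_pow]
  · rw [H.h, ← mul_assoc, hz4, one_mul]

theorem avg_pow_eq {z : R} (hz : z ^ 5 = 1) {j : ℕ} (hj : j = 1 ∨ j = 2 ∨ j = 3 ∨ j = 4) :
    avg (z ^ j) = avg z := by
  have h6 : z ^ 6 = z := by rw [pow_succ, hz, one_mul]
  have h8 : z ^ 8 = z ^ 3 := by rw [show 8 = 5 + 3 by norm_num, pow_add, hz, one_mul]
  have h9 : z ^ 9 = z ^ 4 := by rw [show 9 = 5 + 4 by norm_num, pow_add, hz, one_mul]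
  have h12 : z ^ 12 = z ^ 2 := by
    rw [show 12 = 5 + (5 + 2) by norm_num, pow_add, pow_add, hz, one_mul, one_mul]
  have h16 : z ^ 16 = z := by
    rw [show 16 = 5 + (5 + (5 + 1)) by norm_num, pow_add, pow_add, pow_add, hz, one_mul, one_mul,
      one_mul, pow_one]
  rcases hj with h | h | h | h <;> subst h <;> rw [avg_eq, avg_eq] <;> congr 1 <;>
    simp only [← pow_mul, pow_one] <;> norm_num
  · rw [h6, h8]; abel
  · rw [h6, h9, h12]; abel
  · rw [h8, h12, h16]; abel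

/-- `P b ^ j P = Z b ^ j P` for `j` prime to 5. -/
theorem Heis.avg_pow_avg {a b z : R} (H : Heis a b z) {j : ℕ}
    (hj : j = 1 ∨ j = 2 ∨ j = 3 ∨ j = 4) : avg a * b ^ j * avg a = avg z * (b ^ j * avg a) := by
  have key : ∀ i : ℕ, a ^ i * (b ^ j * avg a) = (z ^ j) ^ i * (b ^ j * avg a) := by
    intro i
    rw [← mul_assoc, heis_pow H.h H.hza H.hzb, mul_assoc, mul_assoc, pow_mul_avg H.ha, ← pow_mul,
      mul_comm j i]
  have k1 := key 1
  rw [pow_one, pow_one] at k1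
  rw [← avg_pow_eq H.hz hj, mul_assoc, avg_mul_eq, avg_mul_eq (z ^ j), key 2, key 3, key 4, k1]

/-- `P Q P` on the kernel of `Z`. -/
theorem Heis.avg_avg_avg {a b z : R} (H : Heis a b z) :
    avg a * avg b * avg a = ((1 : ℂ) / 5) • (avg a + avg z * ((b + b ^ 2 + b ^ 3 + b ^ 4) * avg a)) := by
  have e : avg a * avg b * avg a = ((1 : ℂ) / 5) • (avg a * avg a + avg a * b ^ 1 * avg a +
      avg a * b ^ 2 * avg a + avg a * b ^ 3 * avg a + avg a * b ^ 4 * avg a) := by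
    rw [avg_eq b, mul_smul_comm, smul_mul_assoc, pow_one]
    congr 1
    noncomm_ring
  rw [e, H.avg_pow_avg (by simp), H.avg_pow_avg (by simp), H.avg_pow_avg (by simp),
    H.avg_pow_avg (by simp), avg_mul_avg H.ha, pow_one]
  congr 1
  noncomm_ring

theorem commute_avg {a z : R} (h : z * a = a * z) : avg z * a = a * avg z := by
  have hc : Commute z a := h
  rw [avg_eq, smul_mul_assoc, mul_smul_comm]
  congr 1
  simp only [add_mul, mul_add, one_mul, mul_one, hc.eq, (hc.pow_left 2).eq, (hc.pow_left 3).eq,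
    (hc.pow_left 4).eq]

theorem commute_avg_avg {a z : R} (h : z * a = a * z) : avg z * avg a = avg a * avg z := by
  have hc : Commute (avg z) a := commute_avg h
  rw [avg_eq a, smul_mul_assoc, mul_smul_comm]
  congr 1
  simp only [add_mul, mul_add, one_mul, mul_one, hc.eq, (hc.pow_right 2).eq, (hc.pow_right 3).eq,
    (hc.pow_right 4).eq]

/-- `Z P Q = Z Q P`. -/
theorem Heis.avg_comm {a b z : R} (H : Heis a b z) :
    avg z * (avg a * avg b) = avg z * (avg b * avg a) := by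
  have key : ∀ i j : ℕ, avg z * (a ^ i * b ^ j) = avg z * (b ^ j * a ^ i) := by
    intro i j
    rw [heis_pow H.h H.hza H.hzb, ← mul_assoc, avg_mul_pow H.hz]
  have e1 : avg a * avg b = ((1 : ℂ) / 5) • ((1 : ℂ) / 5) •
      ∑ i ∈ Finset.range 5, ∑ j ∈ Finset.range 5, a ^ i * b ^ j := by
    unfold avg
    rw [smul_mul_assoc, mul_smul_comm, Finset.sum_mul_sum]
  have e2 : avg b * avg a = ((1 : ℂ) / 5) • ((1 : ℂ) / 5) •
      ∑ i ∈ Finset.range 5, ∑ j ∈ Finset.range 5, b ^ j * a ^ i := by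
    unfold avg
    rw [smul_mul_assoc, mul_smul_comm, Finset.sum_mul_sum, Finset.sum_comm]
  rw [e1, e2]
  simp only [mul_smul_comm, Finset.mul_sum, key]

end ring

section hilbert

variable {H : Type*} [NormedAddCommGroup H] [InnerProductSpace ℂ H]

/-- an operator is isometric -/
def Isom (A : H →L[ℂ] H) : Prop := ∀ x, ‖A x‖ = ‖x‖

theorem Isom.inner {A : H →L[ℂ] H} (hA : Isom A) (x y : H) : ⟪A x, A y⟫_ℂ = ⟪x, y⟫_ℂ :=
  (⟨A.toLinearMap, hA⟩ : H →ₗᵢ[ℂ] H).inner_map_map x y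

theorem Isom.pow {A : H →L[ℂ] H} (hA : Isom A) (n : ℕ) : Isom (A ^ n) := by
  induction n with
  | zero => intro x; simp
  | succ n ih =>
    intro x
    rw [pow_succ]
    exact (ih (A x)).trans (hA x)

theorem avg_symm {A : H →L[ℂ] H} (hA : Isom A) (h5 : A ^ 5 = 1) (x y : H) :
    ⟪avg A x, y⟫_ℂ = ⟪x, avg A y⟫_ℂ := by
  have key : ∀ i j : ℕ, i + j = 5 → ⟪(A ^ i) x, y⟫_ℂ = ⟪x, (A ^ j) y⟫_ℂ := by
    intro i j hij
    rw [← (hA.pow j).inner ((A ^ i) x) y]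
    have : (A ^ j) ((A ^ i) x) = x := by
      have h : (A ^ j * A ^ i) x = x := by
        rw [← pow_add, add_comm, hij, h5]; rfl
      exact h
    rw [this]
  have k1 := key 1 4 rfl
  have k2 := key 2 3 rfl
  have k3 := key 3 2 rfl
  have k4 := key 4 1 rfl
  rw [pow_one] at k1 k4
  rw [avg_eq]
  simp only [smul_apply, add_apply, one_apply_eq_self, inner_smul_left, inner_smul_right, inner_add_left,
    inner_add_right, k1, k2, k3, k4]
  have : (starRingEnd ℂ) (1 / 5) = 1 / 5 := by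
    rw [map_div₀, map_one]
    congr 1
    exact Complex.conj_ofNat 5
  rw [this]
  ring

/-- Data of a symmetric idempotent. -/
structure Proj (P : H →L[ℂ] H) : Prop where
  idem : ∀ x, P (P x) = P x
  symm : ∀ x y, ⟪P x, y⟫_ℂ = ⟪x, P y⟫_ℂ

theorem avg_proj {A : H →L[ℂ] H} (hA : Isom A) (h5 : A ^ 5 = 1) : Proj (avg A) :=
  ⟨fun x => by
    have := congrArg (fun T : H →L[ℂ] H => T x) (avg_mul_avg h5)
    exact this, avg_symm hA h5⟩

theorem Proj.re_inner {P : H →L[ℂ] H} (hP : Proj P) (x : H) :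
    (⟪P x, x⟫_ℂ).re = ‖P x‖ ^ 2 := by
  rw [← hP.idem x, hP.symm (P x) x]
  rw [hP.idem, ← inner_self_eq_norm_sq (𝕜 := ℂ)]
  rfl

theorem Proj.norm_sub {P : H →L[ℂ] H} (hP : Proj P) (x : H) :
    ‖x - P x‖ ^ 2 = ‖x‖ ^ 2 - ‖P x‖ ^ 2 := by
  have h := norm_sub_sq (𝕜 := ℂ) x (P x)
  have h2 : RCLike.re ⟪x, P x⟫_ℂ = ‖P x‖ ^ 2 := by
    rw [← hP.symm]
    exact hP.re_inner x
  rw [h, h2]
  ring

/-- the number `1 / sqrt 5` -/
noncomputable def ll : ℝ := 1 / Real.sqrt 5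

theorem ll_pos : 0 < ll := by unfold ll; positivity

theorem ll_sq : ll ^ 2 = 1 / 5 := by
  unfold ll
  rw [div_pow, Real.sq_sqrt (by norm_num), one_pow]

theorem ll_lt : ll < 9 / 20 := by
  have h1 := ll_sq
  have h2 := ll_pos
  nlinarith

/-- The inequality on the orthogonal complement of the fixed vectors of the centre. -/
theorem key_v {P Q : H →L[ℂ] H} (hP : Proj P) (hQ : Proj Q) (v : H)
    (h1 : P (Q (P v)) = ((1 : ℂ) / 5) • P v) (h2 : Q (P (Q v)) = ((1 : ℂ) / 5) • Q v) :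
    0 ≤ 2 * (⟪v - P v, v - Q v⟫_ℂ).re + ll * (‖v - P v‖ ^ 2 + ‖v - Q v‖ ^ 2) := by
  set r : ℝ := (⟪P v, Q v⟫_ℂ).re with hr
  have hP1 : (⟪P v, v⟫_ℂ).re = ‖P v‖ ^ 2 := hP.re_inner v
  have hQ1 : (⟪v, Q v⟫_ℂ).re = ‖Q v‖ ^ 2 := by rw [← hQ.symm]; exact hQ.re_inner v
  have hs : ‖P v - Q v‖ ^ 2 = ‖P v‖ ^ 2 + ‖Q v‖ ^ 2 - 2 * r := by
    have := norm_sub_sq (𝕜 := ℂ) (P v) (Q v)
    rw [this]
    simp only [RCLike.re_to_complex]
    rw [← hr]; ring
  -- first inequality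
  have hv : 5 / 4 * ‖P v - Q v‖ ^ 2 ≤ ‖v‖ ^ 2 := by
    set s := P v - Q v with hsdef
    set w := P s - Q s with hw
    have hws : P w - Q w = ((4 : ℂ) / 5) • s := by
      simp only [hw, hsdef, map_sub, hP.idem, hQ.idem, h1, h2]
      module
    have e1 : (⟪v, w⟫_ℂ).re = ‖s‖ ^ 2 := by
      have : ⟪v, w⟫_ℂ = ⟪s, s⟫_ℂ := by
        rw [hw, inner_sub_right, ← hP.symm, ← hQ.symm, ← inner_sub_left]
      rw [this, ← inner_self_eq_norm_sq (𝕜 := ℂ)]
      rfl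
    have e2 : ‖w‖ ^ 2 = 4 / 5 * ‖s‖ ^ 2 := by
      have h3 : ⟪w, w⟫_ℂ = ((4 : ℂ) / 5) * ⟪s, s⟫_ℂ := by
        calc ⟪w, w⟫_ℂ = ⟪P s - Q s, w⟫_ℂ := rfl
          _ = ⟪s, P w - Q w⟫_ℂ := by
            rw [inner_sub_left, hP.symm, hQ.symm, ← inner_sub_right]
          _ = _ := by rw [hws, inner_smul_right]
      have h4 := congrArg Complex.re h3
      rw [show (⟪w, w⟫_ℂ).re = ‖w‖ ^ 2 from inner_self_eq_norm_sq (𝕜 := ℂ) w] at h4
      rw [h4]
      rw [show ((4 : ℂ) / 5) = (((4 : ℝ) / 5 : ℝ) : ℂ) by push_cast; rfl, Complex.re_ofReal_mul]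
      rw [show (⟪s, s⟫_ℂ).re = ‖s‖ ^ 2 from inner_self_eq_norm_sq (𝕜 := ℂ) s]
    have e3 := norm_sub_sq (𝕜 := ℂ) v (((5 : ℂ) / 4) • w)
    have e4 : ‖((5 : ℂ) / 4) • w‖ ^ 2 = 25 / 16 * ‖w‖ ^ 2 := by
      rw [norm_smul, mul_pow]
      congr 1
      rw [show ((5 : ℂ) / 4) = (((5 : ℝ) / 4 : ℝ) : ℂ) by push_cast; rfl, Complex.norm_real]
      norm_num
    have e5 : RCLike.re ⟪v, ((5 : ℂ) / 4) • w⟫_ℂ = 5 / 4 * ‖s‖ ^ 2 := by
      rw [inner_smul_right, show ((5 : ℂ) / 4) = (((5 : ℝ) / 4 : ℝ) : ℂ) by push_cast; rfl]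
      simp only [RCLike.re_to_complex]
      rw [Complex.re_ofReal_mul, e1]
    rw [e4, e5, e2] at e3
    have e6 : 0 ≤ ‖v - ((5 : ℂ) / 4) • w‖ ^ 2 := by positivity
    linarith
  -- second inequality
  have hr2 : 2 * r ≤ ll * (‖P v‖ ^ 2 + ‖Q v‖ ^ 2) := by
    have e1 : ‖Q (P v)‖ ^ 2 = ll ^ 2 * ‖P v‖ ^ 2 := by
      rw [← hQ.re_inner (P v)]
      have : ⟪Q (P v), P v⟫_ℂ = ((1 : ℂ) / 5) * ⟪P v, v⟫_ℂ := by
        rw [← hP.symm, h1, inner_smul_left]
        congr 1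
        rw [map_div₀, map_one]
        congr 1
        exact Complex.conj_ofNat 5
      rw [this, show ((1 : ℂ) / 5) = (((1 : ℝ) / 5 : ℝ) : ℂ) by push_cast; rfl,
        Complex.re_ofReal_mul, hP1, ll_sq]
    have e2 : (⟪Q (P v), ((ll : ℂ)) • Q v⟫_ℂ).re = ll * r := by
      rw [inner_smul_right, Complex.re_ofReal_mul, hQ.symm, hQ.idem]
    have e3 := norm_sub_sq (𝕜 := ℂ) (Q (P v)) (((ll : ℂ)) • Q v)
    have e4 : ‖((ll : ℂ)) • Q v‖ ^ 2 = ll ^ 2 * ‖Q v‖ ^ 2 := by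
      rw [norm_smul, mul_pow, Complex.norm_real, Real.norm_eq_abs, sq_abs]
    simp only [RCLike.re_to_complex] at e3
    rw [e4, e1, e2] at e3
    have e5 : 0 ≤ ‖Q (P v) - ((ll : ℂ)) • Q v‖ ^ 2 := by positivity
    have e6 : 0 ≤ ll * (ll * (‖P v‖ ^ 2 + ‖Q v‖ ^ 2) - 2 * r) := by nlinarith
    have := nonneg_of_mul_nonneg_right e6 ll_pos
    linarith
  have hre : (⟪v - P v, v - Q v⟫_ℂ).re = ‖v‖ ^ 2 - ‖P v‖ ^ 2 - ‖Q v‖ ^ 2 + r := by
    rw [inner_sub_left, inner_sub_right, inner_sub_right]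
    simp only [Complex.sub_re]
    rw [hP1, hQ1, show (⟪v, v⟫_ℂ).re = ‖v‖ ^ 2 from inner_self_eq_norm_sq (𝕜 := ℂ) _, ← hr]
    ring
  rw [hP.norm_sub, hQ.norm_sub, hre]
  rw [hs] at hv
  have hl := ll_sq
  have hl0 := ll_pos
  have m1 : 0 ≤ (2 + 2 * ll) * (‖v‖ ^ 2 - 5 / 4 * (‖P v‖ ^ 2 + ‖Q v‖ ^ 2 - 2 * r)) :=
    mul_nonneg (by linarith) (by linarith)
  have m2 : 0 ≤ (3 / 2 + 5 / 2 * ll) * (ll * (‖P v‖ ^ 2 + ‖Q v‖ ^ 2) - 2 * r) :=
    mul_nonneg (by linarith) (by linarith)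
  have m3 : ll ^ 2 * (‖P v‖ ^ 2 + ‖Q v‖ ^ 2) = 1 / 5 * (‖P v‖ ^ 2 + ‖Q v‖ ^ 2) := by rw [hl]
  nlinarith

/-- The inequality on the fixed vectors of the centre. -/
theorem key_u {P Q : H →L[ℂ] H} (hP : Proj P) (hQ : Proj Q) (u : H)
    (h : P (Q u) = Q (P u)) : 0 ≤ (⟪u - P u, u - Q u⟫_ℂ).re := by
  have e1 : ⟪u - P u, u - Q u⟫_ℂ = ⟪(u - P u) - Q (u - P u), (u - P u) - Q (u - P u)⟫_ℂ := by
    have a1 : ⟪u - P u, u - Q u⟫_ℂ = ⟪u - P u, (u - Q u) - P (u - Q u)⟫_ℂ := by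
      rw [inner_sub_right (u - P u) (u - Q u), ← hP.symm]
      simp only [map_sub, hP.idem, sub_self, inner_zero_left, sub_zero]
    have a2 : (u - Q u) - P (u - Q u) = (u - P u) - Q (u - P u) := by
      simp only [map_sub, h]; abel
    have a3 : ∀ y : H, ⟪y, y - Q y⟫_ℂ = ⟪y - Q y, y - Q y⟫_ℂ := by
      intro y
      rw [inner_sub_left y (Q y)]
      have : ⟪Q y, y - Q y⟫_ℂ = 0 := by
        rw [hQ.symm]
        simp only [map_sub, hQ.idem, sub_self, inner_zero_right]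
      rw [this, sub_zero]
    rw [a1, a2, a3]
  rw [e1]
  exact inner_self_nonneg (𝕜 := ℂ)

theorem inner_eq_zero_of_proj {Z : H →L[ℂ] H} (hZ : Proj Z) {a b : H} (ha : Z a = a)
    (hb : Z b = 0) : ⟪a, b⟫_ℂ = 0 := by
  rw [← ha, hZ.symm, hb, inner_zero_right]

/-- The main inequality for a Heisenberg triple of isometries. -/
theorem Heis.key {A B C : H →L[ℂ] H} (hH : Heis A B C) (hA : Isom A) (hB : Isom B)
    (hC : Isom C) (x : H) :
    0 ≤ 2 * (⟪x - avg A x, x - avg B x⟫_ℂ).re +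
      ll * (‖x - avg A x‖ ^ 2 + ‖x - avg B x‖ ^ 2) := by
  have hP := avg_proj hA hH.ha
  have hQ := avg_proj hB hH.hb
  have hZ := avg_proj hC hH.hz
  set P := avg A with hPdef
  set Q := avg B with hQdef
  set Z := avg C with hZdef
  have hZP : ∀ y, Z (P y) = P (Z y) := fun y =>
    congrArg (fun T : H →L[ℂ] H => T y) (commute_avg_avg hH.hza)
  have hZQ : ∀ y, Z (Q y) = Q (Z y) := fun y =>
    congrArg (fun T : H →L[ℂ] H => T y) (commute_avg_avg hH.hzb)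
  set u := Z x with hu
  set v := x - Z x with hv
  have hZu : Z u = u := hZ.idem x
  have hZv : Z v = 0 := by rw [hv, map_sub, hZ.idem, sub_self]
  have hx : x = u + v := by rw [hu, hv]; abel
  -- `u` part
  have hcomm : P (Q u) = Q (P u) := by
    have h0 := congrArg (fun T : H →L[ℂ] H => T u) hH.avg_comm
    have h1 : Z (P (Q u)) = Z (Q (P u)) := h0
    rw [hZP, hZQ, hZQ, hZP, hZu] at h1
    exact h1
  have hu0 := key_u hP hQ u hcomm
  -- `v` part
  have gen : ∀ {a b z : H →L[ℂ] H}, Heis a b z → (∀ y, avg z y = Z y) →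
      avg a (avg b (avg a v)) = ((1 : ℂ) / 5) • avg a v := by
    intro a b z hz hzZ
    have h0 := congrArg (fun T : H →L[ℂ] H => T v) hz.avg_avg_avg
    have hc : avg z * ((b + b ^ 2 + b ^ 3 + b ^ 4) * avg a) =
        ((b + b ^ 2 + b ^ 3 + b ^ 4) * avg a) * avg z := by
      have c1 : Commute (avg z) b := commute_avg hz.hzb
      have c2 : Commute (avg z) (avg a) := commute_avg_avg hz.hza
      exact (((c1.add_right (c1.pow_right 2)).add_right (c1.pow_right 3)).add_right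
        (c1.pow_right 4)).mul_right c2
    rw [hc] at h0
    have h1 : avg a (avg b (avg a v)) =
        ((1 : ℂ) / 5) • (avg a v + ((b + b ^ 2 + b ^ 3 + b ^ 4) * avg a) (avg z v)) := h0
    rw [hzZ, hZv, map_zero, add_zero] at h1
    exact h1
  have hPQP : P (Q (P v)) = ((1 : ℂ) / 5) • P v := gen hH fun _ => rfl
  have hQPQ : Q (P (Q v)) = ((1 : ℂ) / 5) • Q v := gen hH.symm fun y => by
    rw [avg_pow_eq hH.hz (by simp)]
  have hv0 := key_v hP hQ v hPQP hQPQ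
  -- orthogonality
  have hZu1 : Z (u - P u) = u - P u := by rw [map_sub, hZP, hZu]
  have hZu2 : Z (u - Q u) = u - Q u := by rw [map_sub, hZQ, hZu]
  have hZv1 : Z (v - P v) = 0 := by rw [map_sub, hZP, hZv, map_zero, sub_zero]
  have hZv2 : Z (v - Q v) = 0 := by rw [map_sub, hZQ, hZv, map_zero, sub_zero]
  have o11 := inner_eq_zero_of_proj hZ hZu1 hZv1
  have o22 := inner_eq_zero_of_proj hZ hZu2 hZv2
  have o12 := inner_eq_zero_of_proj hZ hZu1 hZv2
  have o21 : ⟪v - P v, u - Q u⟫_ℂ = 0 := by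
    rw [← inner_conj_symm, inner_eq_zero_of_proj hZ hZu2 hZv1, map_zero]
  have d1 : x - P x = (u - P u) + (v - P v) := by rw [hx, map_add]; abel
  have d2 : x - Q x = (u - Q u) + (v - Q v) := by rw [hx, map_add]; abel
  have n1 : ‖x - P x‖ ^ 2 = ‖u - P u‖ ^ 2 + ‖v - P v‖ ^ 2 := by
    rw [d1, sq, sq, sq]
    exact norm_add_sq_eq_norm_sq_add_norm_sq_of_inner_eq_zero _ _ o11
  have n2 : ‖x - Q x‖ ^ 2 = ‖u - Q u‖ ^ 2 + ‖v - Q v‖ ^ 2 := by
    rw [d2, sq, sq, sq]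
    exact norm_add_sq_eq_norm_sq_add_norm_sq_of_inner_eq_zero _ _ o22
  have n3 : (⟪x - P x, x - Q x⟫_ℂ).re =
      (⟪u - P u, u - Q u⟫_ℂ).re + (⟪v - P v, v - Q v⟫_ℂ).re := by
    rw [d1, d2, inner_add_left, inner_add_right, inner_add_right, o12, o21, add_zero, zero_add,
      Complex.add_re]
  rw [n1, n2, n3]
  have : 0 ≤ ll * (‖u - P u‖ ^ 2 + ‖u - Q u‖ ^ 2) := mul_nonneg ll_pos.le (by positivity)
  linarith

end hilbert

end Pool.Agent.H60.BF
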