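import Pool.Agent.H60.BF.Gap

/-!
# The group `K = <E12(1), E23(1), E31(t)>` inside `SL_3(F_5[t])`

Property (T) with an explicit constant, infinite conjugacy classes, countability.
-/

set_option autoImplicit false

open scoped InnerProductSpace Polynomial

noncomputable section

namespace Pool.Agent.H60.BF

instance fact5 : Fact (Nat.Prime 5) := ⟨by norm_num⟩

/-- the ring `F_5[t]` -/
abbrev Rt : Type := (ZMod 5)[X]

/-- `SL_3(F_5[t])` -/
abbrev SL3 : Type := Matrix.SpecialLinearGroup (Fin 3) Rt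

/-- elementary matrices -/
def el {i j : Fin 3} (hij : i ≠ j) (c : Rt) : SL3 :=
  ⟨Matrix.transvection i j c, Matrix.det_transvection_of_ne i j hij c⟩

theorem el_coe {i j : Fin 3} (hij : i ≠ j) (c : Rt) :
    (el hij c : Matrix (Fin 3) (Fin 3) Rt) = 1 + Matrix.single i j c := rfl

theorem el_zero {i j : Fin 3} (hij : i ≠ j) : el hij 0 = 1 := by
  apply Subtype.ext
  rw [el_coe]
  simp

theorem el_mul {i j : Fin 3} (hij : i ≠ j) (c d : Rt) : el hij c * el hij d = el hij (c + d) := by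
  apply Subtype.ext
  exact Matrix.transvection_mul_transvection_same i j hij c d

theorem el_inv {i j : Fin 3} (hij : i ≠ j) (c : Rt) : (el hij c)⁻¹ = el hij (-c) := by
  rw [inv_eq_iff_mul_eq_one, el_mul, add_neg_cancel, el_zero]

theorem el_pow {i j : Fin 3} (hij : i ≠ j) (c : Rt) (n : ℕ) :
    (el hij c) ^ n = el hij ((n : Rt) * c) := by
  induction n with
  | zero => rw [pow_zero, Nat.cast_zero, zero_mul, el_zero]
  | succ n ih => rw [pow_succ, ih, el_mul]; congr 1; push_cast; ring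

theorem el_pow5 {i j : Fin 3} (hij : i ≠ j) (c : Rt) : (el hij c) ^ 5 = 1 := by
  rw [el_pow]
  have : ((5 : ℕ) : Rt) = 0 := by
    have := CharP.cast_eq_zero (Rt) 5
    exact this
  rw [this, zero_mul, el_zero]

/-- the commutator relation -/
theorem el_comm {i j k : Fin 3} (hij : i ≠ j) (hjk : j ≠ k) (hik : i ≠ k) (c d : Rt) :
    el hij c * el hjk d = el hik (c * d) * (el hjk d * el hij c) := by
  apply Subtype.ext
  simp only [Matrix.SpecialLinearGroup.coe_mul, el_coe]
  simp only [mul_add, add_mul, mul_one, one_mul, Matrix.single_mul_single_same,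
    Matrix.single_mul_single_of_ne _ _ _ _ hik.symm, Matrix.single_mul_single_of_ne _ _ _ _ hjk.symm]
  simp only [Matrix.mul_zero, add_zero]
  abel

theorem el_comm1 {i j k : Fin 3} (hij : i ≠ j) (hik : i ≠ k) (c d : Rt) :
    el hik d * el hij c = el hij c * el hik d := by
  apply Subtype.ext
  simp only [Matrix.SpecialLinearGroup.coe_mul, el_coe]
  simp only [mul_add, add_mul, mul_one, one_mul,
    Matrix.single_mul_single_of_ne _ _ _ _ hik.symm, Matrix.single_mul_single_of_ne _ _ _ _ hij.symm]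
  abel

theorem el_comm2 {i j k : Fin 3} (hjk : j ≠ k) (hik : i ≠ k) (c d : Rt) :
    el hik d * el hjk c = el hjk c * el hik d := by
  apply Subtype.ext
  simp only [Matrix.SpecialLinearGroup.coe_mul, el_coe]
  simp only [mul_add, add_mul, mul_one, one_mul,
    Matrix.single_mul_single_of_ne _ _ _ _ hik.symm, Matrix.single_mul_single_of_ne _ _ _ _ hjk.symm]
  abel

/-- the three generators in `SL_3` -/
def gen3 : Fin 3 → SL3
  | 0 => el (show (0 : Fin 3) ≠ 1 by decide) 1
  | 1 => el (show (1 : Fin 3) ≠ 2 by decide) 1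
  | 2 => el (show (2 : Fin 3) ≠ 0 by decide) Polynomial.X

/-- the subgroup -/
def Ksub : Subgroup SL3 := Subgroup.closure (Set.range gen3)

/-- The group `K`. -/
abbrev KG : Type := Ksub

theorem gen3_mem (i : Fin 3) : gen3 i ∈ Ksub := Subgroup.subset_closure ⟨i, rfl⟩

/-- the generators as elements of `K` -/
def gen (i : Fin 3) : KG := ⟨gen3 i, gen3_mem i⟩

theorem el_mem_of_comm {i j k : Fin 3} (hij : i ≠ j) (hjk : j ≠ k) (hik : i ≠ k) {c d : Rt}
    (h1 : el hij c ∈ Ksub) (h2 : el hjk d ∈ Ksub) : el hik (c * d) ∈ Ksub := by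
  have h := el_comm hij hjk hik c d
  have e : el hik (c * d) = el hij c * el hjk d * (el hjk d * el hij c)⁻¹ := by
    rw [h, mul_inv_cancel_right]
  rw [e]
  exact Ksub.mul_mem (Ksub.mul_mem h1 h2) (Ksub.inv_mem (Ksub.mul_mem h2 h1))

theorem ne01 : (0 : Fin 3) ≠ 1 := by decide
theorem ne02 : (0 : Fin 3) ≠ 2 := by decide
theorem ne10 : (1 : Fin 3) ≠ 0 := by decide
theorem ne12 : (1 : Fin 3) ≠ 2 := by decide
theorem ne20 : (2 : Fin 3) ≠ 0 := by decide
theorem ne21 : (2 : Fin 3) ≠ 1 := by decide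

theorem mem01 : el ne01 1 ∈ Ksub := gen3_mem 0
theorem mem12 : el ne12 1 ∈ Ksub := gen3_mem 1
theorem mem20 : el ne20 Polynomial.X ∈ Ksub := gen3_mem 2
theorem mem02 : el ne02 1 ∈ Ksub := by
  have := el_mem_of_comm ne01 ne12 ne02 mem01 mem12
  rwa [mul_one] at this
theorem mem10 : el ne10 Polynomial.X ∈ Ksub := by
  have := el_mem_of_comm ne12 ne20 ne10 mem12 mem20
  rwa [one_mul] at this
theorem mem21 : el ne21 Polynomial.X ∈ Ksub := by
  have := el_mem_of_comm ne20 ne01 ne21 mem20 mem01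
  rwa [mul_one] at this

/-- `E12(t^n)` and `E13(t^n)` lie in `K`. -/
theorem mem_pow (n : ℕ) :
    el ne01 (Polynomial.X ^ n) ∈ Ksub ∧ el ne02 (Polynomial.X ^ n) ∈ Ksub := by
  induction n with
  | zero => rw [pow_zero]; exact ⟨mem01, mem02⟩
  | succ n ih =>
    have h1 : el ne01 (Polynomial.X ^ (n + 1)) ∈ Ksub := by
      rw [pow_succ]
      exact el_mem_of_comm ne02 ne21 ne01 ih.2 mem21
    refine ⟨h1, ?_⟩
    have := el_mem_of_comm ne01 ne12 ne02 h1 mem12
    rwa [mul_one] at this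

theorem mem_pow12 (n : ℕ) : el ne12 (Polynomial.X ^ (n + 1)) ∈ Ksub := by
  rw [pow_succ']
  exact el_mem_of_comm ne10 ne02 ne12 mem10 (mem_pow n).2

theorem mem_pow20 (n : ℕ) : el ne20 (Polynomial.X ^ (n + 2)) ∈ Ksub := by
  have h1 : el ne21 (Polynomial.X ^ (n + 1)) ∈ Ksub := by
    rw [pow_succ']
    exact el_mem_of_comm ne20 ne01 ne21 mem20 (mem_pow n).1
  have := el_mem_of_comm ne21 ne10 ne20 h1 mem10
  rwa [← pow_succ] at this

/-! ## Infinite conjugacy classes -/

/-- If the class of `g` is finite and `E_ij(t^(n+2))` are all in `K`, then `E_ij` commutes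
with `g`. -/
theorem commute_of_finite {i j : Fin 3} (hij : i ≠ j)
    (hmem : ∀ n : ℕ, el hij (Polynomial.X ^ (n + 2)) ∈ Ksub) (g : KG)
    (hfin : {h : KG | ∃ k : KG, h = k * g * k⁻¹}.Finite) :
    Matrix.single i j (1 : Rt) * (g : SL3).1 = (g : SL3).1 * Matrix.single i j (1 : Rt) := by
  classical
  set f : ℕ → KG := fun n =>
    (⟨el hij (Polynomial.X ^ (n + 2)), hmem n⟩ : KG) * g *
      (⟨el hij (Polynomial.X ^ (n + 2)), hmem n⟩ : KG)⁻¹ with hf
  have hmaps : Set.MapsTo f Set.univ {h : KG | ∃ k : KG, h = k * g * k⁻¹} :=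
    fun n _ => ⟨_, rfl⟩
  obtain ⟨n, -, m, -, hnm, hfnm⟩ :=
    Set.infinite_univ.exists_ne_map_eq_of_mapsTo hmaps hfin
  -- `u = E(t^n'), w = E(t^m')`, `u g u⁻¹ = w g w⁻¹`
  have h1 : el hij (Polynomial.X ^ (n + 2)) * (g : SL3) * (el hij (Polynomial.X ^ (n + 2)))⁻¹ =
      el hij (Polynomial.X ^ (m + 2)) * (g : SL3) * (el hij (Polynomial.X ^ (m + 2)))⁻¹ :=
    congrArg Subtype.val hfnm
  set c : Rt := Polynomial.X ^ (n + 2) - Polynomial.X ^ (m + 2) with hc
  have hc0 : c ≠ 0 := by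
    rw [hc, sub_ne_zero]
    intro h
    have := congrArg Polynomial.natDegree h
    rw [Polynomial.natDegree_X_pow, Polynomial.natDegree_X_pow] at this
    omega
  have h2 : el hij c * (g : SL3) = (g : SL3) * el hij c := by
    have e1 : el hij c = (el hij (Polynomial.X ^ (m + 2)))⁻¹ * el hij (Polynomial.X ^ (n + 2)) := by
      rw [el_inv, el_mul, hc]; congr 1; ring
    rw [e1]
    have h3 : el hij (Polynomial.X ^ (n + 2)) * (g : SL3) =
        el hij (Polynomial.X ^ (m + 2)) * (g : SL3) * (el hij (Polynomial.X ^ (m + 2)))⁻¹ *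
          el hij (Polynomial.X ^ (n + 2)) := by
      rw [← h1, inv_mul_cancel_right]
    rw [mul_assoc, h3]
    group
  have h4 : (1 + Matrix.single i j c) * (g : SL3).1 = (g : SL3).1 * (1 + Matrix.single i j c) :=
    congrArg Subtype.val h2
  rw [add_mul, mul_add, one_mul, mul_one, add_right_inj] at h4
  have h5 : Matrix.single i j c = c • Matrix.single i j (1 : Rt) := by
    rw [Matrix.smul_single, smul_eq_mul, mul_one]
  rw [h5, Matrix.smul_mul, Matrix.mul_smul] at h4
  exact smul_right_injective _ hc0 h4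

theorem unit_cube (s : Rt) (h : s ^ 3 = 1) : s = 1 := by
  have hu : IsUnit s := IsUnit.of_mul_eq_one (s ^ 2) (by rw [← pow_succ', h])
  rw [Polynomial.isUnit_iff] at hu
  obtain ⟨r, hr, rfl⟩ := hu
  have h2 : r ^ 3 = 1 := by
    rw [← Polynomial.C_pow, ← Polynomial.C_1] at h
    exact Polynomial.C_injective h
  have h3 : ∀ r : ZMod 5, r ^ 3 = 1 → r = 1 := by decide
  rw [h3 r h2, Polynomial.C_1]

/-- `K` has infinite conjugacy classes. -/
theorem icc (g : KG) (hg : g ≠ 1) : {h : KG | ∃ k : KG, h = k * g * k⁻¹}.Infinite := by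
  intro hfin
  apply hg
  have c01 := commute_of_finite ne01 (fun n => (mem_pow (n + 2)).1) g hfin
  have c12 := commute_of_finite ne12 (fun n => mem_pow12 (n + 1)) g hfin
  have c20 := commute_of_finite ne20 (fun n => mem_pow20 n) g hfin
  set M : Matrix (Fin 3) (Fin 3) Rt := (g : SL3).1 with hM
  have hdet : M.det = 1 := (g : SL3).2
  -- entries
  have ent : ∀ (i j k l : Fin 3), (Matrix.single i j (1 : Rt) * M) k l =
      if i = k then M j l else 0 := by
    intro i j k l
    by_cases h : i = k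
    · subst h
      rw [if_pos rfl, Matrix.single_mul_apply_same, one_mul]
    · rw [if_neg h, Matrix.single_mul_apply_of_ne _ _ _ _ _ (Ne.symm h)]
  have ent' : ∀ (i j k l : Fin 3), (M * Matrix.single i j (1 : Rt)) k l =
      if j = l then M k i else 0 := by
    intro i j k l
    by_cases h : j = l
    · subst h
      rw [if_pos rfl, Matrix.mul_single_apply_same, mul_one]
    · rw [if_neg h, Matrix.mul_single_apply_of_ne _ _ _ _ _ (Ne.symm h)]
  have rel : ∀ (i j : Fin 3), Matrix.single i j (1 : Rt) * M = M * Matrix.single i j (1 : Rt) →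
      ∀ k l, (if i = k then M j l else 0) = (if j = l then M k i else 0) := by
    intro i j h k l
    rw [← ent, ← ent', h]
  have r01 := rel 0 1 c01
  have r12 := rel 1 2 c12
  have r20 := rel 2 0 c20
  have a11 : M 1 1 = M 0 0 := by simpa using r01 0 1
  have a10 : M 1 0 = 0 := by simpa using r01 0 0
  have a12 : M 1 2 = 0 := by simpa using r01 0 2
  have a22 : M 2 2 = M 1 1 := by simpa using r12 1 2
  have a20 : M 2 0 = 0 := by simpa using r12 1 0
  have a21 : M 2 1 = 0 := by simpa using r12 1 1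
  have a01 : M 0 1 = 0 := by simpa using r20 2 1
  have a02 : M 0 2 = 0 := by simpa using r20 2 2
  have hd : (M 0 0) ^ 3 = 1 := by
    rw [Matrix.det_fin_three, a10, a12, a20, a21, a01, a02, a22, a11] at hdet
    rw [← hdet]; ring
  have hs := unit_cube _ hd
  apply Subtype.ext
  apply Subtype.ext
  refine Matrix.ext fun k l => ?_
  rw [← hM]
  change M k l = (1 : Matrix (Fin 3) (Fin 3) Rt) k l
  fin_cases k <;> fin_cases l <;> simp [a11, a10, a12, a22, a20, a21, a01, a02, hs]

theorem gen_ne_one : gen 0 ≠ 1 := by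
  intro h
  have h1 := congrArg (fun x : KG => (x : SL3).1 0 1) h
  have h2 : (gen 0 : SL3).1 0 1 = (1 : Rt) := by
    change (1 + Matrix.single 0 1 (1 : Rt) : Matrix (Fin 3) (Fin 3) Rt) 0 1 = 1
    simp
  have h3 : ((1 : KG) : SL3).1 0 1 = (0 : Rt) := by
    change (1 : Matrix (Fin 3) (Fin 3) Rt) 0 1 = 0
    simp
  simp only [h2, h3] at h1
  exact one_ne_zero h1

instance : Infinite KG := by
  by_contra h
  rw [not_infinite_iff_finite] at h
  exact icc (gen 0) gen_ne_one (Set.toFinite _)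

instance : Countable Rt := by
  rw [← Cardinal.mk_le_aleph0_iff]
  refine (Polynomial.cardinalMk_le_max (R := ZMod 5)).trans ?_
  exact max_le Cardinal.mk_le_aleph0 le_rfl

instance : Countable SL3 := by
  unfold SL3
  have : Countable (Matrix (Fin 3) (Fin 3) Rt) := by
    unfold Matrix
    infer_instance
  exact Subtype.countable

instance : Countable KG := by
  unfold KG
  exact Subtype.countable

/-! ## Property (T) -/

section propT

variable {H : Type*} [NormedAddCommGroup H] [InnerProductSpace ℂ H]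

theorem heis_of_group {G : Type*} [Group G] (π : G →* (H →L[ℂ] H)) {a b z : G}
    (ha : a ^ 5 = 1) (hb : b ^ 5 = 1) (hz : z ^ 5 = 1) (h : a * b = z * (b * a))
    (hza : z * a = a * z) (hzb : z * b = b * z) : Heis (π a) (π b) (π z) := by
  refine ⟨?_, ?_, ?_, ?_, ?_, ?_⟩
  · rw [← map_pow, ha, map_one]
  · rw [← map_pow, hb, map_one]
  · rw [← map_pow, hz, map_one]
  · rw [← map_mul, h, map_mul, map_mul]
  · rw [← map_mul, hza, map_mul]
  · rw [← map_mul, hzb, map_mul]

/-- The projections on the fixed vectors of the generators. -/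
def projs (π : KG →* (H →L[ℂ] H)) (i : Fin 3) : H →L[ℂ] H := avg (π (gen i))

theorem gen_pow5 (i : Fin 3) : (gen i) ^ 5 = 1 := by
  apply Subtype.ext
  change (gen3 i) ^ 5 = 1
  fin_cases i
  · exact el_pow5 ne01 _
  · exact el_pow5 ne12 _
  · exact el_pow5 ne20 _

theorem key_sub (P Q : H →L[ℂ] H) (x : H)
    (h : 0 ≤ 2 * (⟪x - P x, x - Q x⟫_ℂ).re + ll * (‖x - P x‖ ^ 2 + ‖x - Q x‖ ^ 2)) :
    0 ≤ 2 * (⟪x - Q x, x - P x⟫_ℂ).re + ll * (‖x - Q x‖ ^ 2 + ‖x - P x‖ ^ 2) := by
  have : (⟪x - Q x, x - P x⟫_ℂ).re = (⟪x - P x, x - Q x⟫_ℂ).re := by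
    rw [← inner_conj_symm, Complex.conj_re]
  rw [this, add_comm (‖x - Q x‖ ^ 2)]
  exact h

theorem projs_trip (π : KG →* (H →L[ℂ] H)) (hπ : ∀ g x, ‖π g x‖ = ‖x‖) : Trip (projs π) := by
  have hI : ∀ g, Isom (π g) := fun g x => hπ g x
  have h5 : ∀ i, (π (gen i)) ^ 5 = 1 := fun i => by rw [← map_pow, gen_pow5, map_one]
  have k01 : ∀ x, 0 ≤ 2 * (⟪x - projs π 0 x, x - projs π 1 x⟫_ℂ).re +
      ll * (‖x - projs π 0 x‖ ^ 2 + ‖x - projs π 1 x‖ ^ 2) := by
    intro x
    have hh : Heis (π (gen 0)) (π (gen 1)) (π ⟨el ne02 1, mem02⟩) := by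
      refine heis_of_group π (gen_pow5 0) (gen_pow5 1) ?_ ?_ ?_ ?_ <;> apply Subtype.ext
      · exact el_pow5 ne02 _
      · have := el_comm ne01 ne12 ne02 1 1
        rwa [mul_one] at this
      · exact el_comm1 ne01 ne02 1 1
      · exact el_comm2 ne12 ne02 1 1
    exact hh.key (hI _) (hI _) (hI _) x
  have k12 : ∀ x, 0 ≤ 2 * (⟪x - projs π 1 x, x - projs π 2 x⟫_ℂ).re +
      ll * (‖x - projs π 1 x‖ ^ 2 + ‖x - projs π 2 x‖ ^ 2) := by
    intro x
    have hh : Heis (π (gen 1)) (π (gen 2)) (π ⟨el ne10 Polynomial.X, mem10⟩) := by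
      refine heis_of_group π (gen_pow5 1) (gen_pow5 2) ?_ ?_ ?_ ?_ <;> apply Subtype.ext
      · exact el_pow5 ne10 _
      · have := el_comm ne12 ne20 ne10 1 Polynomial.X
        rwa [one_mul] at this
      · exact el_comm1 ne12 ne10 1 Polynomial.X
      · exact el_comm2 ne20 ne10 Polynomial.X Polynomial.X
    exact hh.key (hI _) (hI _) (hI _) x
  have k20 : ∀ x, 0 ≤ 2 * (⟪x - projs π 2 x, x - projs π 0 x⟫_ℂ).re +
      ll * (‖x - projs π 2 x‖ ^ 2 + ‖x - projs π 0 x‖ ^ 2) := by
    intro x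
    have hh : Heis (π (gen 2)) (π (gen 0)) (π ⟨el ne21 Polynomial.X, mem21⟩) := by
      refine heis_of_group π (gen_pow5 2) (gen_pow5 0) ?_ ?_ ?_ ?_ <;> apply Subtype.ext
      · exact el_pow5 ne21 _
      · have := el_comm ne20 ne01 ne21 Polynomial.X 1
        rwa [mul_one] at this
      · exact el_comm1 ne20 ne21 Polynomial.X Polynomial.X
      · exact el_comm2 ne01 ne21 1 Polynomial.X
    exact hh.key (hI _) (hI _) (hI _) x
  refine ⟨fun i => avg_proj (hI _) (h5 i), ?_⟩
  intro i j hij x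
  fin_cases i <;> fin_cases j
  · exact absurd rfl hij
  · exact k01 x
  · exact key_sub _ _ x (k20 x)
  · exact key_sub _ _ x (k01 x)
  · exact absurd rfl hij
  · exact k12 x
  · exact k20 x
  · exact key_sub _ _ x (k12 x)
  · exact absurd rfl hij

/-- A vector fixed by the three projections is invariant under `K`. -/
theorem fixed_of_projs (π : KG →* (H →L[ℂ] H)) (y : H) (hy : ∀ i, projs π i y = y) (g : KG) :
    π g y = y := by
  have hgen : ∀ i, π (gen i) y = y := by
    intro i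
    have h5 : (π (gen i)) ^ 5 = 1 := by rw [← map_pow, gen_pow5, map_one]
    have h1 : π (gen i) (avg (π (gen i)) y) = avg (π (gen i)) y :=
      congrArg (fun T : H →L[ℂ] H => T y) (mul_avg h5)
    have h2 : avg (π (gen i)) y = y := hy i
    rw [h2] at h1
    exact h1
  have main : ∀ (g : SL3) (hg : g ∈ Ksub), π ⟨g, hg⟩ y = y := by
    intro g hg
    refine Subgroup.closure_induction (p := fun g hg => π ⟨g, hg⟩ y = y) ?_ ?_ ?_ ?_ hg
    · rintro _ ⟨i, rfl⟩
      exact hgen i
    · change π 1 y = y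
      rw [map_one]; rfl
    · intro a b ha hb h1 h2
      change π (⟨a, ha⟩ * ⟨b, hb⟩) y = y
      rw [map_mul]
      change π ⟨a, ha⟩ (π ⟨b, hb⟩ y) = y
      rw [h2, h1]
    · intro a ha h1
      change π (⟨a, ha⟩⁻¹) y = y
      conv_lhs => rw [← h1]
      change (π (⟨a, ha⟩⁻¹) * π ⟨a, ha⟩) y = y
      rw [← map_mul, inv_mul_cancel, map_one]
      rfl
  exact main g.1 g.2

/-- **Property (T)** for `K`, with constant `1000`. -/
theorem propT [CompleteSpace H] (π : KG →* (H →L[ℂ] H)) (hπ : ∀ g x, ‖π g x‖ = ‖x‖) (x : H)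
    {ε : ℝ} (hε : ∀ i, ‖π (gen i) x - x‖ ≤ ε) (g : KG) : ‖π g x - x‖ ≤ 1000 * ε := by
  have hT := projs_trip π hπ
  obtain ⟨y, hy, hxy⟩ := hT.exists_fixed x
  have hgy := fixed_of_projs π y hy g
  have hε0 : 0 ≤ ε := (norm_nonneg _).trans (hε 0)
  have hpi : ∀ i, ‖x - projs π i x‖ ≤ 2 * ε := by
    intro i
    have hpow : ∀ n : ℕ, ‖x - ((π (gen i)) ^ n) x‖ ≤ n * ε := by
      intro n
      induction n with
      | zero => simp
      | succ n ih =>
        have e : x - ((π (gen i)) ^ (n + 1)) x =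
            (x - π (gen i) x) + π (gen i) (x - ((π (gen i)) ^ n) x) := by
          rw [map_sub, pow_succ']
          change x - π (gen i) (((π (gen i)) ^ n) x) = _
          abel
        rw [e]
        refine (norm_add_le _ _).trans ?_
        rw [hπ, norm_sub_rev, Nat.cast_succ]
        have := hε i
        linarith
    have e : x - projs π i x = ((1 : ℂ) / 5) • ((x - ((π (gen i)) ^ 1) x) +
        (x - ((π (gen i)) ^ 2) x) + (x - ((π (gen i)) ^ 3) x) + (x - ((π (gen i)) ^ 4) x)) := by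
      unfold projs
      rw [avg_eq]
      simp only [smul_apply, add_apply, one_apply_eq_self, pow_one]
      module
    rw [e, norm_smul]
    have h5 : ‖((1 : ℂ) / 5)‖ = 1 / 5 := by
      rw [show ((1 : ℂ) / 5) = (((1 : ℝ) / 5 : ℝ) : ℂ) by push_cast; rfl, Complex.norm_real]
      norm_num
    rw [h5]
    have h1 := hpow 1
    have h2 := hpow 2
    have h3 := hpow 3
    have h4 := hpow 4
    simp only [Nat.cast_one, Nat.cast_ofNat] at h1 h2 h3 h4
    have h6 : ‖(x - ((π (gen i)) ^ 1) x) + (x - ((π (gen i)) ^ 2) x) +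
        (x - ((π (gen i)) ^ 3) x) + (x - ((π (gen i)) ^ 4) x)‖ ≤ 10 * ε := by
      refine (norm_add_le _ _).trans ?_
      have := norm_add₃_le (a := x - ((π (gen i)) ^ 1) x) (b := x - ((π (gen i)) ^ 2) x)
        (c := x - ((π (gen i)) ^ 3) x)
      linarith
    linarith
  have hq : qq (projs π) x ≤ (4 * ε) ^ 2 := by
    unfold qq
    rw [Fin.sum_univ_three]
    have h0 := pow_le_pow_left₀ (norm_nonneg _) (hpi 0) 2
    have h1 := pow_le_pow_left₀ (norm_nonneg _) (hpi 1) 2
    have h2 := pow_le_pow_left₀ (norm_nonneg _) (hpi 2) 2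
    nlinarith
  have hs : Real.sqrt (qq (projs π) x) ≤ 4 * ε := by
    rw [show 4 * ε = Real.sqrt ((4 * ε) ^ 2) by rw [Real.sqrt_sq (by positivity)]]
    exact Real.sqrt_le_sqrt hq
  have e : π g x - x = π g (x - y) - (x - y) := by rw [map_sub, hgy]; abel
  rw [e]
  refine (norm_sub_le _ _).trans ?_
  rw [hπ]
  linarith

end propT

end Pool.Agent.H60.BF
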